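import Mathlib

/-! DS-7: a Higman type lemma for words with copied letters -/

namespace Pool.Agent.Helper77.DS

/-- Higman's lemma for words, given as functions, together with a number. -/
theorem words_wqo_embed {T : Type} [Finite T] (m q : ℕ → ℕ) (v : ∀ k, Fin (m k) → T) :
    ∃ a b, a < b ∧ q a ≤ q b ∧ ∃ f : Fin (m a) → Fin (m b), StrictMono f ∧
      ∀ i, v b (f i) = v a i := by
  obtain ⟨g, hg⟩ := (wellQuasiOrdered_le (α := ℕ)).exists_monotone_subseq q
  have h1 : (Set.univ : Set T).PartiallyWellOrderedOn (fun a b : T => a = b) :=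
    Set.partiallyWellOrderedOn_univ_iff.2 (Finite.wellQuasiOrdered _)
  have h2 := Set.PartiallyWellOrderedOn.partiallyWellOrderedOn_sublistForall₂ _ h1
  rw [Set.partiallyWellOrderedOn_iff_exists_lt] at h2
  obtain ⟨c, d, hcd, h3⟩ := h2 (fun k => List.ofFn (v (g k))) (fun _ _ _ => Set.mem_univ _)
  obtain ⟨l, h4, h5⟩ := List.sublistForall₂_iff.1 h3
  have h6 : List.ofFn (v (g c)) = l := by
    have := h4
    rw [List.forall₂_eq_eq_eq] at this
    exact this
  rw [← h6] at h5
  obtain ⟨f, hf⟩ := List.sublist_iff_exists_fin_orderEmbedding_get_eq.1 h5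
  refine ⟨g c, g d, g.strictMono hcd, hg c d hcd.le,
    fun i => Fin.cast (List.length_ofFn) (f (Fin.cast (List.length_ofFn).symm i)), ?_, ?_⟩
  · intro x y hxy
    have : f (Fin.cast (List.length_ofFn).symm x) < f (Fin.cast (List.length_ofFn).symm y) :=
      f.strictMono (by simpa using hxy)
    simpa using this
  · intro i
    have h7 := hf (Fin.cast (List.length_ofFn).symm i)
    simp only [List.get_ofFn] at h7
    exact h7.symm

/-- DS-7 -/
theorem words_wqo {S : Type} [Finite S] (n q : ℕ → ℕ) (w : ∀ k, Fin (n k + 1) → S) :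
    ∃ a b, a < b ∧ q a ≤ q b ∧ ∃ s : Fin (n b + 1) → Fin (n a + 1), Function.Surjective s ∧
      (∀ x y : Fin (n a + 1), x < y → ∃ i, s i = x ∧ ∀ j, s j = y → i < j) ∧
      ∀ i, w b i = w a (s i) := by
  classical
  obtain ⟨a, b, hab, hq, f, hf, hv⟩ := words_wqo_embed (T := S × Set S × Set S)
    (fun k => n k + 1) q (fun k i => (w k i, {c | ∃ j, j < i ∧ w k j = c}, Set.range (w k)))
  have hw : ∀ i, w b (f i) = w a i := fun i => (Prod.ext_iff.1 (hv i)).1
  have hseen : ∀ i, {c | ∃ j, j < f i ∧ w b j = c} = {c | ∃ j, j < i ∧ w a j = c} :=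
    fun i => (Prod.ext_iff.1 (Prod.ext_iff.1 (hv i)).2).1
  have hran : Set.range (w b) = Set.range (w a) :=
    (Prod.ext_iff.1 (Prod.ext_iff.1 (hv 0)).2).2
  -- first occurrences in `w a`
  have hfirst : ∀ j : Fin (n b + 1), ∃ i : Fin (n a + 1), w a i = w b j ∧
      ∀ i', i' < i → w a i' ≠ w b j := by
    intro j
    have h1 : ∃ i, w a i = w b j := by
      have : w b j ∈ Set.range (w a) := hran ▸ Set.mem_range_self j
      exact this
    obtain ⟨i0, hi0⟩ := h1
    have hne : (Finset.univ.filter fun i : Fin (n a + 1) => w a i = w b j).Nonempty :=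
      ⟨i0, by simp [hi0]⟩
    refine ⟨(Finset.univ.filter fun i : Fin (n a + 1) => w a i = w b j).min' hne, ?_, ?_⟩
    · have := Finset.min'_mem _ hne
      simpa using this
    · intro i' hi' hc
      have : (Finset.univ.filter fun i : Fin (n a + 1) => w a i = w b j).min' hne ≤ i' :=
        Finset.min'_le _ _ (by simp [hc])
      exact absurd hi' (not_lt.2 this)
  choose p hp hpmin using hfirst
  let s : Fin (n b + 1) → Fin (n a + 1) :=
    fun j => if h : ∃ i, f i = j then h.choose else p j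
  have hs1 : ∀ i, s (f i) = i := by
    intro i
    have h : ∃ i', f i' = f i := ⟨i, rfl⟩
    have h2 : s (f i) = h.choose := dif_pos h
    rw [h2]
    exact hf.injective h.choose_spec
  have hs2 : ∀ j, (∀ i, f i ≠ j) → s j = p j := by
    intro j hj
    exact dif_neg (by rintro ⟨i, hi⟩; exact hj i hi)
  refine ⟨a, b, hab, hq, s, fun i => ⟨f i, hs1 i⟩, ?_, ?_⟩
  · intro x y hxy
    refine ⟨f x, hs1 x, ?_⟩
    intro j hj
    by_cases hjr : ∃ i, f i = j
    · obtain ⟨i, rfl⟩ := hjr
      rw [hs1] at hj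
      subst hj
      exact hf hxy
    · have hjr' : ∀ i, f i ≠ j := fun i hi => hjr ⟨i, hi⟩
      rw [hs2 j hjr'] at hj
      have hlet : w a y = w b j := by rw [← hj]; exact hp j
      have hmin : ∀ i', i' < y → w a i' ≠ w b j := by rw [← hj]; exact hpmin j
      have hle : f y ≤ j := by
        by_contra hcon
        have hlt : j < f y := not_le.1 hcon
        have hm : w b j ∈ {c | ∃ j, j < f y ∧ w b j = c} := ⟨j, hlt, rfl⟩
        rw [hseen] at hm
        obtain ⟨i', hi', he⟩ := hm
        exact hmin i' hi' he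
      exact lt_of_lt_of_le (hf hxy) hle
  · intro j
    by_cases hjr : ∃ i, f i = j
    · obtain ⟨i, rfl⟩ := hjr
      rw [hs1, hw]
    · have hjr' : ∀ i, f i ≠ j := fun i hi => hjr ⟨i, hi⟩
      rw [hs2 j hjr', hp j]

end Pool.Agent.Helper77.DS
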